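import Pool.Agent.Helper18.NF.StN

/-!
# Sums of Lipschitz functions over translates of a lattice
-/

set_option autoImplicit false

open Finset Filter Topology NumberField Module MeasureTheory
open scoped Pointwise

namespace Pool.Agent.Helper4.NF

open Pool.Agent.Helper18.NF Pool.Agent.Helper18.BV

section

variable {E : Type} [NormedAddCommGroup E] [NormedSpace ℝ E] [FiniteDimensional ℝ E]
    [MeasurableSpace E] [BorelSpace E] (μ : Measure E) [μ.IsAddHaarMeasure]
    (La : Submodule ℤ E) [DiscreteTopology La] [IsZLattice ℝ La]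

theorem exists_fd : ∃ (F : Set E) (d : ℝ), 0 ≤ d ∧ MeasurableSet F ∧
    IsAddFundamentalDomain La F μ ∧ (∀ y ∈ F, ‖y‖ ≤ d) ∧
    μ.real F = ZLattice.covolume La μ := by
  have hb := ZLattice.isAddFundamentalDomain (Free.chooseBasis ℤ La) μ
  obtain ⟨d, hd⟩ := (ZSpan.fundamentalDomain_isBounded
    ((Free.chooseBasis ℤ La).ofZLatticeBasis ℝ)).exists_norm_le
  exact ⟨_, max d 0, le_max_right _ _, ZSpan.fundamentalDomain_measurableSet _, hb,
    fun y hy => (hd y hy).trans (le_max_left _ _),
    (ZLattice.covolume_eq_measure_fundamentalDomain La μ hb).symm⟩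

variable {La}

omit [DiscreteTopology ↥La] [IsZLattice ℝ La] in
theorem card_le {F : Set E} {d : ℝ} (hfd : IsAddFundamentalDomain La F μ)
    (hd0 : 0 ≤ d) (hd : ∀ y ∈ F, ‖y‖ ≤ d) (v : E) (ρ : ℝ) (hρ : 0 ≤ ρ) (s : Finset La)
    (hs : ∀ l ∈ s, ‖(l : E) + v‖ ≤ ρ) :
    (s.card : ℝ) * μ.real F ≤ (ρ + d) ^ finrank ℝ E * μ.real (Metric.closedBall (0 : E) 1) := by
  have : MeasurableVAdd La E := (inferInstance : MeasurableVAdd La.toAddSubgroup E)
  have : VAddInvariantMeasure La E μ := (inferInstance : VAddInvariantMeasure La.toAddSubgroup E μ)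
  have h1 : μ (⋃ l ∈ s, l +ᵥ F) = ∑ l ∈ s, μ (l +ᵥ F) := by
    refine measure_biUnion_finset₀ ?_ ?_
    · intro l _ l' _ hll
      exact hfd.aedisjoint hll
    · intro l _
      exact hfd.nullMeasurableSet_vadd l
  have h2 : (⋃ l ∈ s, l +ᵥ F) ⊆ Metric.closedBall (-v) (ρ + d) := by
    intro y hy
    simp only [Set.mem_iUnion] at hy
    obtain ⟨l, hl, hy⟩ := hy
    obtain ⟨f, hf, rfl⟩ := Set.mem_vadd_set.1 hy
    rw [Metric.mem_closedBall, dist_eq_norm]
    have e : (l +ᵥ f) - -v = ((l : E) + v) + f := by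
      have : l +ᵥ f = (l : E) + f := rfl
      rw [this]
      abel
    rw [e]
    exact (norm_add_le _ _).trans (add_le_add (hs l hl) (hd f hf))
  have h3 : (s.card : ENNReal) * μ F ≤ μ (Metric.closedBall (-v) (ρ + d)) := by
    calc (s.card : ENNReal) * μ F = ∑ l ∈ s, μ (l +ᵥ F) := by
          simp [measure_vadd]
      _ = _ := h1.symm
      _ ≤ _ := measure_mono h2
  have h4 : μ (Metric.closedBall (-v) (ρ + d)) ≠ ⊤ := measure_closedBall_lt_top.ne
  have h5 := ENNReal.toReal_mono h4 h3
  rw [ENNReal.toReal_mul, ENNReal.toReal_natCast] at h5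
  have h6 : μ.real (Metric.closedBall (-v) (ρ + d)) =
      (ρ + d) ^ finrank ℝ E * μ.real (Metric.closedBall (0 : E) 1) := by
    rw [measureReal_def, Measure.addHaar_closedBall' μ _ (by positivity), ENNReal.toReal_mul,
      ENNReal.toReal_ofReal (by positivity)]
    rfl
  rw [← h6]
  exact h5

end

theorem latSum : LatSum := by
  intro E _ _ _ _ _ μ _ La _ _ n hn hn1 R hR
  obtain ⟨F, d, hd0, hFm, hfd, hd, hcov⟩ := exists_fd μ La
  have hc0 : 0 < ZLattice.covolume La μ := ZLattice.covolume_pos La μ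
  set c : ℝ := ZLattice.covolume La μ with hc
  set M : ℝ := μ.real (Metric.closedBall (0 : E) 1) with hM
  have hM0 : 0 ≤ M := measureReal_nonneg
  have hcount : ∀ (v : E) (ρ : ℝ), 0 ≤ ρ → ∀ s : Finset La, (∀ l ∈ s, ‖(l : E) + v‖ ≤ ρ) →
      (s.card : ℝ) ≤ M / c * (ρ + d) ^ n := by
    intro v ρ hρ s hs
    have h := card_le μ hfd hd0 hd v ρ hρ s hs
    rw [hcov, hn] at h
    rw [div_mul_eq_mul_div, le_div_iff₀ hc0]
    linarith
  have hfin : ∀ (v : E) (ρ : ℝ), 0 ≤ ρ → {l : La | ‖(l : E) + v‖ ≤ ρ}.Finite := by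
    intro v ρ hρ
    by_contra hinf
    obtain ⟨k, hk⟩ := exists_nat_gt (M / c * (ρ + d) ^ n)
    obtain ⟨s, hs, hsk⟩ := Set.Infinite.exists_subset_card_eq hinf k
    have := hcount v ρ hρ s (fun l hl => hs hl)
    rw [hsk] at this
    linarith
  have : Nontrivial E := Module.nontrivial_of_finrank_pos (R := ℝ) (by omega)
  obtain ⟨e, he⟩ : ∃ e : E, ‖e‖ = 1 := exists_norm_eq E zero_le_one
  refine ⟨M / c * ((R + 2 * d) ^ n * d + (R + d) ^ n * (2 * R + 1) + R ^ n * (2 * R + 1)) + 1,
    by positivity, ?_⟩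
  intro A H hLip hsupp t v ht
  have hA : 0 ≤ A := by
    have h := hLip e 0
    rw [sub_zero, he, mul_one] at h
    exact (norm_nonneg _).trans h
  have hbound : ∀ y, ‖H y‖ ≤ A * (2 * R + 1) := by
    intro y
    by_cases hy : R < ‖y‖
    · rw [hsupp y hy, norm_zero]
      positivity
    · push Not at hy
      have h0 : H (y + (2 * R + 1) • e) = 0 := by
        refine hsupp _ ?_
        have h1 : ‖(2 * R + 1) • e‖ = 2 * R + 1 := by
          rw [norm_smul, he, mul_one, Real.norm_of_nonneg (by positivity)]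
        have h2 := norm_sub_norm_le ((2 * R + 1) • e) (-y)
        rw [norm_neg, sub_neg_eq_add, h1, add_comm ((2 * R + 1) • e) y] at h2
        linarith
      have h1 := hLip y (y + (2 * R + 1) • e)
      rw [h0, sub_zero, sub_add_cancel_left, norm_neg, norm_smul, he, mul_one,
        Real.norm_of_nonneg (by positivity)] at h1
      exact h1
  have hHc : Continuous H := by
    have : LipschitzWith (Real.toNNReal A) H := by
      refine LipschitzWith.of_dist_le_mul fun y z => ?_
      rw [dist_eq_norm, dist_eq_norm, Real.coe_toNNReal A hA]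
      exact hLip y z
    exact this.continuous
  -- the rescaled function
  set h : E → ℂ := fun y => H (t⁻¹ • (y + v)) with hh
  have hhc : Continuous h := hHc.comp (by fun_prop)
  have ht0 : 0 ≤ t := ht.le
  have hnorm : ∀ y : E, ‖t⁻¹ • y‖ = t⁻¹ * ‖y‖ := fun y => by
    rw [norm_smul, Real.norm_of_nonneg (by positivity)]
  have hhs : ∀ y : E, R * t < ‖y + v‖ → h y = 0 := by
    intro y hy
    refine hsupp _ ?_
    rw [hnorm, inv_mul_eq_div, lt_div_iff₀ ht]
    exact hy
  have hhL : ∀ y z, ‖h y - h z‖ ≤ A / t * ‖y - z‖ := by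
    intro y z
    have h1 := hLip (t⁻¹ • (y + v)) (t⁻¹ • (z + v))
    rw [← smul_sub, hnorm, add_sub_add_right_eq_sub] at h1
    calc ‖h y - h z‖ ≤ _ := h1
      _ = A / t * ‖y - z‖ := by ring
  have hhcs : HasCompactSupport h := by
    refine HasCompactSupport.intro (isCompact_closedBall (-v) (R * t)) ?_
    intro y hy
    refine hhs y ?_
    rw [Metric.mem_closedBall, dist_eq_norm, sub_neg_eq_add, not_le] at hy
    exact hy
  have hhi : Integrable h μ := hhc.integrable_of_hasCompactSupport hhcs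
  have hI : ∫ y, h y ∂μ = ((t ^ n : ℝ) : ℂ) * ∫ y, H y ∂μ := by
    have h1 : ∫ y, h y ∂μ = ∫ y, H (t⁻¹ • y) ∂μ := by
      rw [hh]
      exact integral_add_right_eq_self (fun y => H (t⁻¹ • y)) v
    rw [h1, Measure.integral_comp_inv_smul, hn, abs_of_nonneg (by positivity), Complex.real_smul]
  have hsuppfin : {l : La | H (t⁻¹ • ((l : E) + v)) ≠ 0}.Finite := by
    refine (hfin v (R * t) (by positivity)).subset ?_
    intro l hl
    by_contra hcon
    have : R * t < ‖(l : E) + v‖ := by
      simpa using hcon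
    exact hl (hhs _ this)
  refine ⟨hsuppfin, ?_⟩
  -- bounds for `t < 1` and `t ≥ 1`
  rcases lt_or_ge t 1 with ht1 | ht1
  · set s : Finset La := (hfin v (R * t) (by positivity)).toFinset with hs
    have hs' : ∀ l ∈ s, ‖(l : E) + v‖ ≤ R * t := by
      intro l hl
      rw [hs, Set.Finite.mem_toFinset] at hl
      exact hl
    have e1 : ∑ᶠ l : La, H (t⁻¹ • ((l : E) + v)) = ∑ l ∈ s, H (t⁻¹ • ((l : E) + v)) := by
      refine finsum_eq_sum_of_support_subset _ ?_
      intro l hl
      rw [hs, Set.Finite.coe_toFinset]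
      by_contra hcon
      have : R * t < ‖(l : E) + v‖ := by
        simpa using hcon
      exact hl (hhs _ this)
    have e2 : ‖∑ l ∈ s, H (t⁻¹ • ((l : E) + v))‖ ≤ M / c * (R + d) ^ n * (A * (2 * R + 1)) := by
      calc ‖∑ l ∈ s, H (t⁻¹ • ((l : E) + v))‖ ≤ ∑ l ∈ s, ‖H (t⁻¹ • ((l : E) + v))‖ :=
            norm_sum_le _ _
        _ ≤ ∑ l ∈ s, A * (2 * R + 1) := Finset.sum_le_sum fun l _ => hbound _
        _ = s.card * (A * (2 * R + 1)) := by rw [Finset.sum_const, nsmul_eq_mul]
        _ ≤ M / c * (R + d) ^ n * (A * (2 * R + 1)) := by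
            refine mul_le_mul_of_nonneg_right ?_ (by positivity)
            refine (hcount v (R * t) (by positivity) s hs').trans ?_
            refine mul_le_mul_of_nonneg_left ?_ (by positivity)
            refine pow_le_pow_left₀ (by positivity) ?_ n
            nlinarith
    have e3 : ‖∫ y, H y ∂μ‖ ≤ M * R ^ n * (A * (2 * R + 1)) := by
      have h1 : ∫ y, H y ∂μ = ∫ y in Metric.closedBall (0 : E) R, H y ∂μ := by
        rw [setIntegral_eq_integral_of_forall_compl_eq_zero]
        intro y hy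
        refine hsupp y ?_
        rw [Metric.mem_closedBall, dist_zero_right, not_le] at hy
        exact hy
      rw [h1]
      have h2 := norm_setIntegral_le_of_norm_le_const (μ := μ) (f := H)
        (s := Metric.closedBall (0 : E) R) (C := A * (2 * R + 1)) measure_closedBall_lt_top
        (fun y _ => hbound y)
      have h3 : μ.real (Metric.closedBall (0 : E) R) = R ^ n * M := by
        rw [measureReal_def, Measure.addHaar_closedBall' μ _ hR.le, ENNReal.toReal_mul,
          ENNReal.toReal_ofReal (by positivity), hn]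
        rfl
      rw [h3] at h2
      calc _ ≤ _ := h2
        _ = _ := by ring
    have e4 : ‖((t ^ n / c : ℝ) : ℂ) * ∫ y, H y ∂μ‖ ≤ M / c * R ^ n * (A * (2 * R + 1)) := by
      rw [norm_mul, Complex.norm_real, Real.norm_of_nonneg (by positivity)]
      calc t ^ n / c * ‖∫ y, H y ∂μ‖ ≤ 1 / c * (M * R ^ n * (A * (2 * R + 1))) := by
            refine mul_le_mul ?_ e3 (norm_nonneg _) (by positivity)
            exact div_le_div_of_nonneg_right (pow_le_one₀ ht0 ht1.le) hc0.le
        _ = _ := by ring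
    rw [e1]
    have e5 : (1 : ℝ) ≤ (1 + t) ^ (n - 1) := one_le_pow₀ (by linarith)
    have e6 : 0 ≤ M / c * (R + 2 * d) ^ n * d * A := by positivity
    calc _ ≤ _ := norm_sub_le _ _
      _ ≤ M / c * (R + d) ^ n * (A * (2 * R + 1)) + M / c * R ^ n * (A * (2 * R + 1)) :=
          add_le_add e2 e4
      _ ≤ (M / c * ((R + 2 * d) ^ n * d + (R + d) ^ n * (2 * R + 1) + R ^ n * (2 * R + 1)) + 1) *
          A := by linarith
      _ ≤ (M / c * ((R + 2 * d) ^ n * d + (R + d) ^ n * (2 * R + 1) + R ^ n * (2 * R + 1)) + 1) *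
          A * (1 + t) ^ (n - 1) := le_mul_of_one_le_right (by positivity) e5
  · set s : Finset La := (hfin v (R * t + d) (by positivity)).toFinset with hs
    have hs' : ∀ l ∈ s, ‖(l : E) + v‖ ≤ R * t + d := by
      intro l hl
      rw [hs, Set.Finite.mem_toFinset] at hl
      exact hl
    have hs'' : ∀ l : La, l ∉ s → R * t + d < ‖(l : E) + v‖ := by
      intro l hl
      rw [hs, Set.Finite.mem_toFinset] at hl
      simpa using hl
    have e1 : ∑ᶠ l : La, H (t⁻¹ • ((l : E) + v)) = ∑ l ∈ s, h l := by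
      refine finsum_eq_sum_of_support_subset _ ?_
      intro l hl
      by_contra hcon
      have : R * t + d < ‖(l : E) + v‖ := hs'' l (by simpa using hcon)
      exact hl (hhs _ (by linarith))
    have : MeasurableVAdd La E := (inferInstance : MeasurableVAdd La.toAddSubgroup E)
    have : VAddInvariantMeasure La E μ :=
      (inferInstance : VAddInvariantMeasure La.toAddSubgroup E μ)
    have e2 : ∫ y, h y ∂μ = ∑ l ∈ s, ∫ y in F, h ((l : E) + y) ∂μ := by
      rw [hfd.integral_eq_tsum'' h hhi]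
      rw [tsum_eq_sum (s := s)]
      · rfl
      · intro l hl
        refine setIntegral_eq_zero_of_forall_eq_zero ?_
        intro y hy
        refine hhs _ ?_
        have h1 := hs'' l hl
        have h2 := hd y hy
        have e : (l +ᵥ y) + v = ((l : E) + v) - (-y) := by
          have : l +ᵥ y = (l : E) + y := rfl
          rw [this]
          abel
        rw [e]
        have h3 := norm_sub_norm_le ((l : E) + v) (-y)
        rw [norm_neg] at h3
        linarith
    have hFt : μ F < ⊤ := by
      have hsub : F ⊆ Metric.closedBall (0 : E) d := fun y hy => by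
        rw [Metric.mem_closedBall, dist_zero_right]
        exact hd y hy
      exact (measure_mono hsub).trans_lt measure_closedBall_lt_top
    have e3 : ∀ l : La, ‖(c : ℂ) * h l - ∫ y in F, h ((l : E) + y) ∂μ‖ ≤ A / t * d * c := by
      intro l
      have h1 : (c : ℂ) * h l = ∫ y in F, h l ∂μ := by
        rw [setIntegral_const, hcov, Complex.real_smul]
      have hint : IntegrableOn (fun y => h ((l : E) + y)) F μ :=
        ((hhi.comp_add_left (l : E))).integrableOn
      have hconst : IntegrableOn (fun _ : E => h l) F μ := by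
        rw [integrableOn_const_iff]
        exact Or.inr hFt
      rw [h1, ← integral_sub hconst hint]
      have h2 := norm_setIntegral_le_of_norm_le_const (μ := μ)
        (f := fun y => h l - h ((l : E) + y)) (s := F) (C := A / t * d) hFt ?_
      · rw [hcov] at h2
        exact h2
      · intro y hy
        have h3 := hhL (l : E) ((l : E) + y)
        rw [sub_add_cancel_left, norm_neg] at h3
        exact h3.trans (mul_le_mul_of_nonneg_left (hd y hy) (by positivity))
    have e4 : ∑ l ∈ s, h l - ((t ^ n / c : ℝ) : ℂ) * ∫ y, H y ∂μ =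
        (1 / c : ℂ) * ∑ l ∈ s, ((c : ℂ) * h l - ∫ y in F, h ((l : E) + y) ∂μ) := by
      rw [Finset.sum_sub_distrib, ← Finset.mul_sum, ← e2, hI]
      have hc0' : (c : ℂ) ≠ 0 := by exact_mod_cast hc0.ne'
      push_cast
      field_simp
    rw [e1, e4, norm_mul]
    have e5 : ‖(1 / c : ℂ)‖ = 1 / c := by
      rw [norm_div, norm_one, Complex.norm_real, Real.norm_of_nonneg hc0.le]
    rw [e5]
    have e6 : ‖∑ l ∈ s, ((c : ℂ) * h l - ∫ y in F, h ((l : E) + y) ∂μ)‖ ≤
        s.card * (A / t * d * c) := by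
      calc _ ≤ ∑ l ∈ s, ‖(c : ℂ) * h l - ∫ y in F, h ((l : E) + y) ∂μ‖ := norm_sum_le _ _
        _ ≤ ∑ l ∈ s, A / t * d * c := Finset.sum_le_sum fun l _ => e3 l
        _ = _ := by rw [Finset.sum_const, nsmul_eq_mul]
    have e7 : (s.card : ℝ) ≤ M / c * ((R + 2 * d) * t) ^ n := by
      refine (hcount v (R * t + d) (by positivity) s hs').trans ?_
      refine mul_le_mul_of_nonneg_left ?_ (by positivity)
      refine pow_le_pow_left₀ (by positivity) ?_ n
      nlinarith
    have e8 : t ^ n = t * t ^ (n - 1) := by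
      obtain ⟨k, rfl⟩ : ∃ k, n = k + 1 := ⟨n - 1, by omega⟩
      rw [Nat.add_sub_cancel, pow_succ]
      ring
    have e9 : t ^ (n - 1) ≤ (1 + t) ^ (n - 1) := pow_le_pow_left₀ ht0 (by linarith) _
    calc 1 / c * ‖∑ l ∈ s, ((c : ℂ) * h l - ∫ y in F, h ((l : E) + y) ∂μ)‖
        ≤ 1 / c * (s.card * (A / t * d * c)) :=
          mul_le_mul_of_nonneg_left e6 (by positivity)
      _ = s.card * (A * d / t) := by field_simp
      _ ≤ M / c * ((R + 2 * d) * t) ^ n * (A * d / t) :=
          mul_le_mul_of_nonneg_right e7 (by positivity)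
      _ = M / c * (R + 2 * d) ^ n * d * A * t ^ (n - 1) := by
          rw [mul_pow, e8]
          field_simp
      _ ≤ M / c * (R + 2 * d) ^ n * d * A * (1 + t) ^ (n - 1) :=
          mul_le_mul_of_nonneg_left e9 (by positivity)
      _ ≤ (M / c * ((R + 2 * d) ^ n * d + (R + d) ^ n * (2 * R + 1) + R ^ n * (2 * R + 1)) + 1) *
          A * (1 + t) ^ (n - 1) := by
          refine mul_le_mul_of_nonneg_right ?_ (by positivity)
          have h1 : 0 ≤ M / c * (R + d) ^ n * (2 * R + 1) * A := by positivity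
          have h2 : 0 ≤ M / c * R ^ n * (2 * R + 1) * A := by positivity
          linarith

end Pool.Agent.Helper4.NF
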